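import Mathlib

/-!
# Splitting the disc into three congruent pieces (S10842): definitions and task statements
-/

set_option autoImplicit false

namespace Pool.Agent.H908R3.Disc

open Complex ComplexConjugate

/-- `E t = exp (i t)`. -/
noncomputable def E (t : ℝ) : ℂ := Complex.exp ((t : ℂ) * Complex.I)

/-- isometries of the plane, in coordinates. -/
def IsIso (F : ℂ → ℂ) : Prop :=
  ∃ u t : ℂ, ‖u‖ = 1 ∧ ((∀ x, F x = u * x + t) ∨ (∀ x, F x = u * conj x + t))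

/-- `A`, `F A`, `G A` is a partition of the closed unit disc. -/
def Part (A : Set ℂ) (F G : ℂ → ℂ) : Prop :=
  A ∪ F '' A ∪ G '' A = Metric.closedBall (0 : ℂ) 1 ∧
  Disjoint A (F '' A) ∧ Disjoint A (G '' A) ∧ Disjoint (F '' A) (G '' A)

/-- the core statement in complex coordinates. -/
def Core : Prop := ∀ (A : Set ℂ) (F G : ℂ → ℂ), IsIso F → IsIso G → Part A F G → False

/-- TASK A: transfer to `EuclideanSpace`. -/
def TaskA : Prop := Core →
  ¬ (∃ A B C : Set (EuclideanSpace ℝ (Fin 2)),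
      A ∪ B ∪ C = Metric.closedBall (0 : EuclideanSpace ℝ (Fin 2)) 1 ∧
      Disjoint A B ∧ Disjoint A C ∧ Disjoint B C ∧
      (∃ f : EuclideanSpace ℝ (Fin 2) ≃ᵢ EuclideanSpace ℝ (Fin 2), f '' A = B) ∧
      (∃ g : EuclideanSpace ℝ (Fin 2) ≃ᵢ EuclideanSpace ℝ (Fin 2), g '' A = C))

/-- TASK B: the three centres are pairwise distinct. -/
def TaskB : Prop := ∀ (A : Set ℂ) (F G : ℂ → ℂ) (q2 q3 : ℂ), IsIso F → IsIso G →
  F q2 = 0 → G q3 = 0 → A ∪ F '' A ∪ G '' A = Metric.closedBall (0 : ℂ) 1 →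
  q2 ≠ 0 → q3 ≠ 0 → q2 ≠ q3 → False

/-- the case of two equal centres. -/
def Core2 : Prop := ∀ (A : Set ℂ) (R g : ℂ → ℂ), IsIso R → IsIso g → R 0 = 0 →
  Part A R g → False

/-- TASK C: relabelling. -/
def TaskC : Prop := TaskB → Core2 → Core

/-- labelled configuration. `L1 = A`, `L2 = R A`, `L3 = g A`, `R` the rotation by `b`,
`gi` the inverse of `g`. -/
structure Cfg (b : ℝ) (g gi : ℂ → ℂ) (L1 L2 L3 : ℂ → Prop) : Prop where
  cov : ∀ x, ‖x‖ ≤ 1 → L1 x ∨ L2 x ∨ L3 x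
  in1 : ∀ x, L1 x → ‖x‖ ≤ 1
  in2 : ∀ x, L2 x → ‖x‖ ≤ 1
  in3 : ∀ x, L3 x → ‖x‖ ≤ 1
  n12 : ∀ x, L1 x → ¬ L2 x
  n13 : ∀ x, L1 x → ¬ L3 x
  n23 : ∀ x, L2 x → ¬ L3 x
  r12 : ∀ x, L1 x → L2 (E b * x)
  r21 : ∀ x, L2 x → L1 (E (-b) * x)
  g13 : ∀ x, L1 x → L3 (g x)
  g31 : ∀ x, L3 x → L1 (gi x)

/-- orientation preserving `g`, `g d = 0`. -/
noncomputable def gP (c d : ℝ) (x : ℂ) : ℂ := E c * (x - d)
noncomputable def giP (c d : ℝ) (y : ℂ) : ℂ := d + E (-c) * y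
/-- orientation reversing `g`, `g d = 0`. -/
noncomputable def gR (c d : ℝ) (x : ℂ) : ℂ := E c * (conj x - d)
noncomputable def giR (c d : ℝ) (y : ℂ) : ℂ := d + E c * conj y

/-- all configurations with orientation preserving (`o = true`) / reversing (`o = false`) `g`;
`d = 2 sin (e/2)`. -/
def CfgO (o : Bool) (b c e : ℝ) (L1 L2 L3 : ℂ → Prop) : Prop :=
  if o then Cfg b (gP c (2 * Real.sin (e/2))) (giP c (2 * Real.sin (e/2))) L1 L2 L3
  else Cfg b (gR c (2 * Real.sin (e/2))) (giR c (2 * Real.sin (e/2))) L1 L2 L3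

/-- the normalised statement. -/
def Core3 : Prop := ∀ (o : Bool) (b c e : ℝ) (L1 L2 L3 : ℂ → Prop),
  0 < b → b < Real.pi → 0 < e → e ≤ Real.pi / 3 → b / 2 ≤ c → c ≤ b / 2 + Real.pi →
  CfgO o b c e L1 L2 L3 → False

/-- TASK D: normalisation. -/
def TaskD : Prop := Core3 → Core2

end Pool.Agent.H908R3.Disc
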