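import Pool.Agent.H908R3.Disc.Cases

/-!
# Case0 (helper853): the parameter range
-/

set_option autoImplicit false

namespace Pool.Agent.H908R3.Disc

open Complex ComplexConjugate

theorem case0 : Case0 := by
  intro o b c e L1 L2 L3 hb hb' he he' hbc hcb hC
  have hpi := Real.pi_pos
  have h := hC.lab
  have hs : 0 < Real.sin (e / 2) := Real.sin_pos_of_pos_of_lt_pi (by linarith) (by linarith)
  have key : ∀ a : ℝ, Real.cos a < Real.sin (e / 2) → Real.cos (a - b) < Real.sin (e / 2) →
      - Real.cos (a - c) < Real.sin (e / 2) → False := by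
    intro a h1 h2 h3
    rcases h.cov (E a) (norm_E a).le with h4 | h4 | h4
    · exact h.not1 he he' h1 h4
    · exact h.not2 he he' h2 h4
    · exact h.not3 he he' h3 h4
  -- (i)
  have hce : c ≤ b - e := by
    by_contra hcon
    push Not at hcon
    have hlt : max (b + Real.pi / 2 - e / 2) (c - Real.pi / 2 - e / 2) <
        min (3 * Real.pi / 2 + e / 2) (c + Real.pi / 2 + e / 2) := by
      rw [lt_min_iff, max_lt_iff, max_lt_iff]
      refine ⟨⟨by linarith, by linarith⟩, ⟨by linarith, by linarith⟩⟩
    obtain ⟨a, ha1, ha2⟩ := exists_between hlt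
    rw [max_lt_iff] at ha1
    rw [lt_min_iff] at ha2
    refine key a ?_ ?_ ?_
    · apply cos_lt_sin he he' <;> linarith
    · apply cos_lt_sin he he' <;> linarith
    · have h4 : - Real.cos (a - c) = Real.cos (a - c + Real.pi) := by
        rw [Real.cos_add_pi]
      rw [h4]
      apply cos_lt_sin he he' <;> linarith
  -- (ii)
  have hbe : b ≤ Real.pi - e := by
    by_contra hcon
    push Not at hcon
    refine key (b / 2) ?_ ?_ ?_
    · apply cos_lt_sin he he' <;> linarith
    · have h4 : Real.cos (b / 2 - b) = Real.cos (b / 2) := by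
        rw [← Real.cos_neg]
        congr 1
        ring
      rw [h4]
      apply cos_lt_sin he he' <;> linarith
    · have h4 : 0 ≤ Real.cos (b / 2 - c) :=
        Real.cos_nonneg_of_mem_Icc ⟨by linarith, by linarith⟩
      linarith
  exact ⟨hb, hb', he, he', hbc, hce, hbe⟩

end Pool.Agent.H908R3.Disc

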