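import Pool.Agent.H908R3.Disc.Cases

/-!
# Case 2 of project H908-DISC (helper873)
-/

set_option autoImplicit false

namespace Pool.Agent.H908R3.Disc

open Complex ComplexConjugate

namespace Case2Aux

theorem eta_facts {b e : ℝ} (b0 : 0 < b) (e0 : 0 < e) (e3 : e ≤ Real.pi / 3)
    (bpe : b ≤ Real.pi - e) :
    0 ≤ eta b e ∧ eta b e ≤ e ∧ Real.sin (eta b e) = 2 * Real.sin (e/2) * Real.sin (b/2) ∧
      0 ≤ Real.cos (eta b e) ∧ Real.cos (eta b e) ≤ 1 := by
  have hpi := Real.pi_pos
  have hs : 0 < Real.sin (e/2) := Real.sin_pos_of_pos_of_lt_pi (by linarith) (by linarith)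
  have hsb : 0 < Real.sin (b/2) := Real.sin_pos_of_pos_of_lt_pi (by linarith) (by linarith)
  have hle : Real.sin (b/2) ≤ Real.cos (e/2) := by
    rw [← Real.sin_pi_div_two_sub]
    apply Real.sin_le_sin_of_le_of_le_pi_div_two <;> linarith
  have hsin : 2 * Real.sin (e/2) * Real.sin (b/2) ≤ Real.sin e := by
    have h1 : Real.sin e = 2 * Real.sin (e/2) * Real.cos (e/2) := by
      rw [← Real.sin_two_mul]; congr 1; ring
    rw [h1]
    exact mul_le_mul_of_nonneg_left hle (by positivity)
  have h0 : 0 ≤ 2 * Real.sin (e/2) * Real.sin (b/2) := by positivity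
  have h1 : 2 * Real.sin (e/2) * Real.sin (b/2) ≤ 1 := hsin.trans (Real.sin_le_one _)
  refine ⟨Real.arcsin_nonneg.2 h0, ?_, Real.sin_arcsin (by linarith) h1,
    Real.cos_arcsin_nonneg _, Real.cos_le_one _⟩
  have h2 := Real.monotone_arcsin hsin
  rw [Real.arcsin_sin (by linarith) (by linarith)] at h2
  exact h2

/-- the point `X` -/
noncomputable def X (b e : ℝ) : ℂ :=
  -((Real.cos (eta b e) - 2 * Real.sin (e/2) * Real.cos (b/2) : ℝ) : ℂ) * E (b/2)

theorem X_sub {b e : ℝ} (hs : Real.sin (eta b e) = 2 * Real.sin (e/2) * Real.sin (b/2)) :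
    X b e - ((2 * Real.sin (e/2) : ℝ) : ℂ) = E (Real.pi + b/2 - eta b e) := by
  have e1 : Real.pi + b/2 - eta b e = (b/2 - eta b e) + Real.pi := by ring
  rw [e1, E_add_pi]
  have hsq := Real.sin_sq_add_cos_sq (b/2)
  apply Complex.ext
  · simp only [X, Complex.sub_re, Complex.neg_re, Complex.mul_re, Complex.ofReal_re, Complex.neg_im,
      Complex.ofReal_im, E_re, E_im, Real.cos_sub, hs]
    linear_combination (2 * Real.sin (e/2)) * hsq
  · simp only [X, Complex.sub_im, Complex.neg_re, Complex.mul_im, Complex.ofReal_re, Complex.neg_im,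
      Complex.ofReal_im, E_re, E_im, Real.sin_sub, hs]
    ring

theorem X_conj (b e : ℝ) : conj (X b e) = E (-b) * X b e := by
  unfold X
  rw [map_mul, map_neg, Complex.conj_ofReal, conj_E]
  have : E (-(b/2)) = E (-b) * E (b/2) := by
    rw [E_mul]; congr 1; ring
  rw [this]
  ring

theorem X_sub' {b e : ℝ} (hs : Real.sin (eta b e) = 2 * Real.sin (e/2) * Real.sin (b/2)) :
    E (-b) * X b e - ((2 * Real.sin (e/2) : ℝ) : ℂ) = E (-(Real.pi + b/2 - eta b e)) := by
  rw [← X_conj, ← conj_E, ← X_sub hs, map_sub, Complex.conj_ofReal]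

theorem X_norm {b e : ℝ} (b0 : 0 < b) (e0 : 0 < e) (e3 : e ≤ Real.pi / 3)
    (bpe : b ≤ Real.pi - e) : ‖X b e‖ ≤ 1 := by
  have hpi := Real.pi_pos
  obtain ⟨-, -, -, h1, h2⟩ := eta_facts b0 e0 e3 bpe
  have hs : 0 < Real.sin (e/2) := Real.sin_pos_of_pos_of_lt_pi (by linarith) (by linarith)
  have hs2 : Real.sin (e/2) ≤ 1/2 := by
    rw [← Real.sin_pi_div_six]
    apply Real.sin_le_sin_of_le_of_le_pi_div_two <;> linarith
  have hc : 0 ≤ Real.cos (b/2) := Real.cos_nonneg_of_mem_Icc ⟨by linarith, by linarith⟩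
  have hc1 := Real.cos_le_one (b/2)
  unfold X
  rw [norm_mul, norm_E, mul_one, norm_neg, Complex.norm_real, Real.norm_eq_abs, abs_le]
  constructor
  · nlinarith
  · nlinarith [mul_nonneg hs.le hc]

/-- from the two `3`-labels to a contradiction -/
theorem contra {o : Bool} {b c e : ℝ} {L1 L2 L3 : ℂ → Prop} (h : CfgO o b c e L1 L2 L3)
    (hs : Real.sin (eta b e) = 2 * Real.sin (e/2) * Real.sin (b/2))
    (hz : L3 (E (c + Real.pi + b/2 - eta b e))) (hw : L3 (E (c + Real.pi - b/2 + eta b e))) :
    False := by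
  have hL := h.lab
  have key : L1 (X b e) ∧ L1 (E (-b) * X b e) := by
    unfold CfgO at h
    cases o with
    | true =>
      simp only [if_true] at h
      have hcc : E (-c) * E c = 1 := by rw [E_mul]; simp [E_zero]
      constructor
      · have h1 := h.g31 _ hz
        have e1 : giP c (2 * Real.sin (e/2)) (E (c + Real.pi + b/2 - eta b e)) = X b e := by
          unfold giP
          have e2 : c + Real.pi + b/2 - eta b e = c + (Real.pi + b/2 - eta b e) := by ring
          rw [e2, E_add, ← X_sub hs]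
          linear_combination (X b e - ((2 * Real.sin (e/2) : ℝ) : ℂ)) * hcc
        rwa [e1] at h1
      · have h1 := h.g31 _ hw
        have e1 : giP c (2 * Real.sin (e/2)) (E (c + Real.pi - b/2 + eta b e)) =
            E (-b) * X b e := by
          unfold giP
          have e2 : c + Real.pi - b/2 + eta b e =
              (c + (-(Real.pi + b/2 - eta b e))) + 2 * Real.pi := by ring
          rw [e2, E_two_pi, E_add, ← X_sub' hs]
          linear_combination (E (-b) * X b e - ((2 * Real.sin (e/2) : ℝ) : ℂ)) * hcc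
        rwa [e1] at h1
    | false =>
      simp only [Bool.false_eq_true, if_false] at h
      have hcc : E c * E (-c) = 1 := by rw [E_mul]; simp [E_zero]
      constructor
      · have h1 := h.g31 _ hw
        have e1 : giR c (2 * Real.sin (e/2)) (E (c + Real.pi - b/2 + eta b e)) = X b e := by
          unfold giR
          have e2 : c + Real.pi - b/2 + eta b e =
              (c + (-(Real.pi + b/2 - eta b e))) + 2 * Real.pi := by ring
          rw [e2, E_two_pi, E_add, map_mul, conj_E, conj_E, neg_neg, ← X_sub hs]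
          linear_combination (X b e - ((2 * Real.sin (e/2) : ℝ) : ℂ)) * hcc
        rwa [e1] at h1
      · have h1 := h.g31 _ hz
        have e1 : giR c (2 * Real.sin (e/2)) (E (c + Real.pi + b/2 - eta b e)) =
            E (-b) * X b e := by
          unfold giR
          have e2 : c + Real.pi + b/2 - eta b e = c + (Real.pi + b/2 - eta b e) := by ring
          rw [e2, E_add, map_mul, conj_E, conj_E, ← X_sub' hs]
          linear_combination (E (-b) * X b e - ((2 * Real.sin (e/2) : ℝ) : ℂ)) * hcc
        rwa [e1] at h1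
  have h2 := hL.r12 _ key.2
  have h3 : E b * (E (-b) * X b e) = X b e := by
    have h4 : E b * E (-b) = 1 := by rw [E_mul]; simp [E_zero]
    linear_combination X b e * h4
  rw [h3] at h2
  exact hL.n12 _ key.1 h2

end Case2Aux

open Case2Aux in
theorem case2 : Case2 := by
  intro o b c e L1 L2 L3 hP h hb hmain
  obtain ⟨b0, bpi, e0, e3, cb, cbe, bpe⟩ := hP
  have hpi := Real.pi_pos
  obtain ⟨he0, hee, hs, -, -⟩ := eta_facts b0 e0 e3 bpe
  have hL := h.lab
  have hc0 : 0 < c := by linarith
  rcases hb with hb | hb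
  · refine contra h hs ?_ ?_
    · exact hL.ex3 e0 e3 b0 bpi (by linarith) (by linarith)
    · exact hL.ex3 e0 e3 b0 bpi (by linarith) (by linarith)
  · refine contra h hs ?_ ?_
    · exact hL.sure3 e0 e3 b0 bpi hc0 cbe (by linarith) (Or.inl (by linarith)) (Or.inr (by linarith))
    · exact hL.sure3 e0 e3 b0 bpi hc0 cbe (by linarith) (Or.inr (by linarith)) (Or.inl (by linarith))

end Pool.Agent.H908R3.Disc
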