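import Pool.Agent.H908R3.Disc.Cases

/-!
# Case 3 of the certificates (helper939)
-/

set_option autoImplicit false

namespace Pool.Agent.H908R3.Disc

open Complex ComplexConjugate

namespace C3

/-- the positive number `d = 2 sin (e/2)` -/
theorem d_pos {e : ℝ} (he : 0 < e) (he' : e ≤ Real.pi / 3) : 0 < 2 * Real.sin (e / 2) := by
  have : 0 < Real.sin (e/2) := Real.sin_pos_of_pos_of_lt_pi (by linarith)
    (by have := Real.pi_pos; linarith)
  linarith

theorem gt_of {s : ℝ} {P : ℂ}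
    (h : 0 < -2 * (Real.cos s * P.re + Real.sin s * P.im) + (P.re ^ 2 + P.im ^ 2)) :
    ¬ ‖E s - P‖ ≤ 1 := by
  refine norm_gt_one ?_
  simp only [Complex.sub_re, Complex.sub_im, E_re, E_im]
  have := Real.sin_sq_add_cos_sq s
  nlinarith

/-- certificate `P = d (1 + E (2 u))` -/
theorem G1 {s u d : ℝ} (hd : 0 < d) (hu : Real.cos u < 0) (hs : 0 < Real.cos (u - s)) :
    ¬ ‖E s - ((d : ℂ) + (d : ℂ) * E (2 * u))‖ ≤ 1 := by
  apply gt_of
  simp only [Complex.add_re, Complex.add_im, Complex.mul_re, Complex.mul_im,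
    Complex.ofReal_re, Complex.ofReal_im, E_re, E_im, zero_mul, sub_zero, add_zero, zero_add]
  rw [Real.cos_two_mul, Real.sin_two_mul]
  have hK : Real.cos (u - s) = Real.cos u * Real.cos s + Real.sin u * Real.sin s :=
    Real.cos_sub u s
  have key : -2 * (Real.cos s * (d + d * (2 * Real.cos u ^ 2 - 1)) +
      Real.sin s * (d * (2 * Real.sin u * Real.cos u))) +
      ((d + d * (2 * Real.cos u ^ 2 - 1)) ^ 2 + (d * (2 * Real.sin u * Real.cos u)) ^ 2) =
      4 * (d * (-Real.cos u) * Real.cos (u - s)) + 4 * d ^ 2 * Real.cos u ^ 2 := by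
    rw [hK]
    linear_combination (4 * d ^ 2 * Real.cos u ^ 2) * Real.sin_sq_add_cos_sq u
  rw [key]
  have h1 : 0 < d * (-Real.cos u) * Real.cos (u - s) :=
    mul_pos (mul_pos hd (by linarith)) hs
  positivity

/-- certificate `P = d (1 - E (2 v))` -/
theorem G2 {v d : ℝ} (hd : 0 < d) (hv : Real.sin v ≠ 0) :
    ¬ ‖E v - ((d : ℂ) - (d : ℂ) * E (2 * v))‖ ≤ 1 := by
  apply gt_of
  simp only [Complex.sub_re, Complex.sub_im, Complex.mul_re, Complex.mul_im,
    Complex.ofReal_re, Complex.ofReal_im, E_re, E_im, zero_mul, sub_zero, add_zero]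
  rw [Real.cos_two_mul, Real.sin_two_mul]
  have key : -2 * (Real.cos v * (d - d * (2 * Real.cos v ^ 2 - 1)) +
      Real.sin v * (0 - d * (2 * Real.sin v * Real.cos v))) +
      ((d - d * (2 * Real.cos v ^ 2 - 1)) ^ 2 + (0 - d * (2 * Real.sin v * Real.cos v)) ^ 2) =
      4 * d ^ 2 * Real.sin v ^ 2 := by
    have h := Real.sin_sq_add_cos_sq v
    have h' : Real.cos v ^ 2 = 1 - Real.sin v ^ 2 := by linarith
    have e1 : (d - d * (2 * Real.cos v ^ 2 - 1)) = 2 * d * Real.sin v ^ 2 := by rw [h']; ring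
    rw [e1]
    linear_combination (4 * d ^ 2 * Real.sin v ^ 2) * h
  rw [key]
  positivity

end C3

section S
variable {b c e : ℝ} {L1 L2 L3 : ℂ → Prop}

/-- the point `t = E (-b) s₊` is in the disc and neither in `L1` nor in `L3`, if
`s₊ = E c (E (b/2) - d)` is in `L3`. -/
theorem lemmaA' (h : Lab b c e L1 L2 L3) (he : 0 < e) (he' : e ≤ Real.pi / 3) (hb : 0 < b)
    (hb' : b < Real.pi)
    (h3 : L3 (E c * (E (b / 2) - ((2 * Real.sin (e/2) : ℝ) : ℂ)))) :
    ‖E (-b) * (E c * (E (b / 2) - ((2 * Real.sin (e/2) : ℝ) : ℂ)))‖ ≤ 1 ∧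
    ¬ L1 (E (-b) * (E c * (E (b / 2) - ((2 * Real.sin (e/2) : ℝ) : ℂ)))) ∧
    ¬ L3 (E (-b) * (E c * (E (b / 2) - ((2 * Real.sin (e/2) : ℝ) : ℂ)))) := by
  have hd := C3.d_pos he he'
  set d := 2 * Real.sin (e / 2) with hdd
  have e1 : E (-b) * E c = E (c - b) := by rw [E_mul]; congr 1; ring
  refine ⟨?_, ?_, ?_⟩
  · rw [norm_E_mul]
    exact h.in3 _ h3
  · intro h1
    have h2 := h.r12 _ h1
    have e2 : E b * E (-b) = 1 := by rw [E_mul]; simp [E_zero]
    rw [← mul_assoc, e2, one_mul] at h2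
    exact h.n23 _ h2 h3
  · intro h4
    have h5 := h.m3 _ h4
    have e2 : E (c - b) * E (2 * (b / 2)) = E c := by rw [E_mul]; congr 1; ring
    have e3 : E (-b) * (E c * (E (b / 2) - (d : ℂ))) + (d : ℂ) * E c =
        E (c - b) * (E (b / 2) - ((d : ℂ) - (d : ℂ) * E (2 * (b / 2)))) := by
      linear_combination (E (b / 2) - (d : ℂ)) * e1 - (d : ℂ) * e2
    rw [← hdd] at h5
    rw [e3, norm_E_mul] at h5
    exact C3.G2 hd (Real.sin_pos_of_pos_of_lt_pi (by linarith) (by linarith)).ne' h5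

/-- `s₊ = E c (E (b/2) - d)` is not in `L3`. -/
theorem lemmaA (h : Lab b c e L1 L2 L3) (he : 0 < e) (he' : e ≤ Real.pi / 3) (hb : 0 < b)
    (hb' : b < Real.pi) (_hc : 0 < c) (h1 : Real.cos (b - c / 2) < 0)
    (h2 : 0 < Real.cos ((b - c) / 2)) :
    ¬ L3 (E c * (E (b / 2) - ((2 * Real.sin (e/2) : ℝ) : ℂ))) := by
  intro h3
  obtain ⟨k1, k2, k3⟩ := lemmaA' h he he' hb hb' h3
  have hd := C3.d_pos he he'
  rcases h.cov _ k1 with k | k | k
  · exact k2 k
  · have h5 := h.m2 _ k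
    set d := 2 * Real.sin (e / 2) with hdd
    have e1 : E (-b) * E c = E (c - b) := by rw [E_mul]; congr 1; ring
    have e2 : E (c - b) * E (2 * (b - c / 2)) = E b := by rw [E_mul]; congr 1; ring
    have e3 : E (-b) * (E c * (E (b / 2) - (d : ℂ))) - (d : ℂ) * E b =
        E (c - b) * (E (b / 2) - ((d : ℂ) + (d : ℂ) * E (2 * (b - c / 2)))) := by
      linear_combination (E (b / 2) - (d : ℂ)) * e1 + (d : ℂ) * e2
    rw [e3, norm_E_mul] at h5
    refine C3.G1 hd h1 ?_ h5
    have : b - c / 2 - b / 2 = (b - c) / 2 := by ring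
    rw [this]
    exact h2
  · exact k3 k

/-- `s₋ = E c (E (-b/2) - d)` is not in `L3`. -/
theorem lemmaB (h : Lab b c e L1 L2 L3) (he : 0 < e) (he' : e ≤ Real.pi / 3) (hb : 0 < b)
    (hb' : b < Real.pi) (hc : 0 < c) (hc' : c < Real.pi) (hbc : Real.pi < b + c) :
    ¬ L3 (E c * (E (-(b / 2)) - ((2 * Real.sin (e/2) : ℝ) : ℂ))) := by
  intro h3
  have hd := C3.d_pos he he'
  have hn : ‖E b * (E c * (E (-(b / 2)) - ((2 * Real.sin (e/2) : ℝ) : ℂ)))‖ ≤ 1 := by
    rw [norm_E_mul]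
    exact h.in3 _ h3
  have e1 : E b * E c = E (b + c) := E_mul b c
  rcases h.cov _ hn with k | k | k
  · have h5 := h.m1 _ k
    set d := 2 * Real.sin (e / 2) with hdd
    have e2 : E (b + c) * E (2 * (-((b + c) / 2))) = 1 := by
      rw [E_mul, ← E_zero]; congr 1; ring
    have e3 : E b * (E c * (E (-(b / 2)) - (d : ℂ))) - (d : ℂ) =
        E (b + c) * (E (-(b / 2)) - ((d : ℂ) + (d : ℂ) * E (2 * (-((b + c) / 2))))) := by
      linear_combination (E (-(b / 2)) - (d : ℂ)) * e1 + (d : ℂ) * e2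
    rw [e3, norm_E_mul] at h5
    refine C3.G1 hd ?_ ?_ h5
    · rw [Real.cos_neg]
      apply Real.cos_neg_of_pi_div_two_lt_of_lt <;> linarith
    · have : -((b + c) / 2) - -(b / 2) = -(c / 2) := by ring
      rw [this, Real.cos_neg]
      apply Real.cos_pos_of_mem_Ioo
      constructor <;> linarith
  · refine h.not2_of ?_ k
    intro k1
    exact h.n13 _ k1 h3
  · have h5 := h.m3 _ k
    set d := 2 * Real.sin (e / 2) with hdd
    have e2 : E (b + c) * E (2 * (-(b / 2))) = E c := by rw [E_mul]; congr 1; ring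
    have e3 : E b * (E c * (E (-(b / 2)) - (d : ℂ))) + (d : ℂ) * E c =
        E (b + c) * (E (-(b / 2)) - ((d : ℂ) - (d : ℂ) * E (2 * (-(b / 2))))) := by
      linear_combination (E (-(b / 2)) - (d : ℂ)) * e1 - (d : ℂ) * e2
    rw [e3, norm_E_mul] at h5
    refine C3.G2 hd ?_ h5
    rw [Real.sin_neg]
    have := Real.sin_pos_of_pos_of_lt_pi (x := b / 2) (by linarith) (by linarith)
    linarith

/-- from labels of `E (b/2)` to labels of `s₊`, `s₋`. -/
theorem s_cases {o : Bool} (h : CfgO o b c e L1 L2 L3) (hx : ¬ L3 (E (b / 2))) :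
    L3 (E c * (E (b / 2) - ((2 * Real.sin (e/2) : ℝ) : ℂ))) ∨
    L3 (E c * (E (-(b / 2)) - ((2 * Real.sin (e/2) : ℝ) : ℂ))) := by
  have hL := h.lab
  have e4 : E (-b) * E (b / 2) = E (-(b / 2)) := by rw [E_mul]; congr 1; ring
  have hcase : L1 (E (b / 2)) ∨ L1 (E (-(b / 2))) := by
    rcases hL.cov _ (norm_E (b / 2)).le with k | k | k
    · exact Or.inl k
    · right
      have := hL.r21 _ k
      rwa [e4] at this
    · exact absurd k hx
  cases o with
  | true =>
    have h' : Cfg b (gP c (2 * Real.sin (e/2))) (giP c (2 * Real.sin (e/2))) L1 L2 L3 := by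
      simpa [CfgO] using h
    rcases hcase with k | k
    · exact Or.inl (h'.g13 _ k)
    · exact Or.inr (h'.g13 _ k)
  | false =>
    have h' : Cfg b (gR c (2 * Real.sin (e/2))) (giR c (2 * Real.sin (e/2))) L1 L2 L3 := by
      simpa [CfgO] using h
    rcases hcase with k | k
    · right
      have := h'.g13 _ k
      unfold gR at this
      rwa [conj_E] at this
    · left
      have := h'.g13 _ k
      unfold gR at this
      rwa [conj_E, neg_neg] at this

end S

theorem case3 : Case3 := by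
  intro o b c e L1 L2 L3 hP h hc1 hc2
  obtain ⟨b0, bpi, e0, e3, cb, cbe, bpe⟩ := hP
  have hpi := Real.pi_pos
  have hL := h.lab
  have hc : 0 < c := by linarith
  have hx : ¬ L3 (E (b / 2)) := by
    apply hL.not3 e0 e3
    have h1 : 0 < Real.cos (b / 2 - c) := by
      apply Real.cos_pos_of_mem_Ioo
      constructor <;> linarith
    have h2 := C3.d_pos e0 e3
    linarith
  rcases s_cases h hx with k | k
  · refine lemmaA hL e0 e3 b0 bpi hc ?_ ?_ k
    · apply Real.cos_neg_of_pi_div_two_lt_of_lt <;> linarith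
    · apply Real.cos_pos_of_mem_Ioo
      constructor <;> linarith
  · exact lemmaB hL e0 e3 b0 bpi hc (by linarith) (by linarith) k

end Pool.Agent.H908R3.Disc
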