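import Pool.Agent.H908R3.Disc.Cases

/-!
# Certificate 8
-/

set_option autoImplicit false

namespace Pool.Agent.H908R3.Disc

open Complex ComplexConjugate

namespace C8

theorem E_sub (s t : ℝ) :
    E s - E t = ((2 * Real.sin ((s - t) / 2) : ℝ) : ℂ) * E (Real.pi / 2 + (s + t) / 2) := by
  apply Complex.ext
  · simp only [Complex.sub_re, Complex.mul_re, Complex.ofReal_re, Complex.ofReal_im, E_re, E_im]
    rw [Real.cos_sub_cos, Real.cos_add (Real.pi / 2), Real.cos_pi_div_two, Real.sin_pi_div_two]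
    ring
  · simp only [Complex.sub_im, Complex.mul_im, Complex.ofReal_re, Complex.ofReal_im, E_re, E_im]
    rw [Real.sin_sub_sin, Real.sin_add (Real.pi / 2), Real.cos_pi_div_two, Real.sin_pi_div_two]
    ring

/-- norm of a sum of two vectors -/
theorem nsq2 (p q k : ℝ) : (E p + (k : ℂ) * E q).re ^ 2 + (E p + (k : ℂ) * E q).im ^ 2
    = 1 + k ^ 2 + 2 * k * Real.cos (p - q) := by
  simp only [Complex.add_re, Complex.add_im, Complex.mul_re, Complex.mul_im, Complex.ofReal_re,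
    Complex.ofReal_im, E_re, E_im]
  rw [Real.cos_sub]
  have h1 := Real.sin_sq_add_cos_sq p
  have h2 := Real.sin_sq_add_cos_sq q
  linear_combination h1 + k ^ 2 * h2

/-- norm of a sum of three vectors -/
theorem nsq3 (p q k d : ℝ) : (E p + (d : ℂ) + (k : ℂ) * E q).re ^ 2
    + (E p + (d : ℂ) + (k : ℂ) * E q).im ^ 2
    = 1 + d ^ 2 + k ^ 2 + 2 * d * Real.cos p + 2 * k * Real.cos (p - q)
      + 2 * d * k * Real.cos q := by
  simp only [Complex.add_re, Complex.add_im, Complex.mul_re, Complex.mul_im, Complex.ofReal_re,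
    Complex.ofReal_im, E_re, E_im]
  rw [Real.cos_sub]
  have h1 := Real.sin_sq_add_cos_sq p
  have h2 := Real.sin_sq_add_cos_sq q
  linear_combination h1 + k ^ 2 * h2

/-- numerical facts -/
theorem facts {b e : ℝ} (hb0 : 0 < b) (he0 : 0 < e) (he3 : e ≤ Real.pi / 3)
    (hb2 : b < 2 * Real.pi / 3) (hb3 : 3 * Real.pi / 2 + e / 2 ≤ 5 * b / 2 - eta b e) :
    0 < 2 * Real.sin (e / 2) ∧ 3 * Real.pi / 5 < b ∧ 1 / 2 < Real.cos (b / 2) ∧
      Real.cos (b / 2) ≤ 3 / 5 ∧ 4 / 5 ≤ Real.sin (b / 2) ∧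
      6 * (2 * Real.sin (e / 2)) / 5 ≤ - Real.cos b := by
  have hpi := Real.pi_pos
  have hs : 0 < Real.sin (e / 2) := Real.sin_pos_of_pos_of_lt_pi (by linarith) (by linarith)
  have hs2 : Real.sin (e / 2) ≤ 1 / 2 := by
    rw [← Real.sin_pi_div_six]
    exact Real.sin_le_sin_of_le_of_le_pi_div_two (by linarith) (by linarith) (by linarith)
  have hq0 : 0 < Real.sin (b / 2) := Real.sin_pos_of_pos_of_lt_pi (by linarith) (by linarith)
  have heta0 : 0 ≤ eta b e := by
    unfold eta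
    exact Real.arcsin_nonneg.2 (by positivity)
  have hb : 3 * Real.pi / 5 < b := by linarith
  have hx : 1 / 2 < Real.cos (b / 2) := by
    rw [← Real.cos_pi_div_three]
    exact Real.cos_lt_cos_of_nonneg_of_le_pi (by linarith) (by linarith) (by linarith)
  have hq : 4 / 5 ≤ Real.sin (b / 2) := by
    rw [← Real.cos_pi_div_two_sub]
    have h1 : Real.cos (Real.pi / 5) ≤ Real.cos (Real.pi / 2 - b / 2) :=
      Real.cos_le_cos_of_nonneg_of_le_pi (by linarith) (by linarith) (by linarith)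
    rw [Real.cos_pi_div_five] at h1
    have h2 : (2.2 : ℝ) ≤ Real.sqrt 5 := by
      apply Real.le_sqrt_of_sq_le; norm_num
    linarith
  have hx2 : Real.cos (b / 2) ≤ 3 / 5 := by
    nlinarith [Real.sin_sq_add_cos_sq (b / 2)]
  refine ⟨by linarith, hb, hx, hx2, hq, ?_⟩
  -- the bound for `d`
  have h1 : Real.sin (e / 2) ≤ e / 2 := Real.sin_le (by linarith)
  have h2 : 2 * Real.sin (e / 2) * Real.sin (b / 2) ≤ eta b e := by
    have h3 : 0 ≤ 2 * Real.sin (e / 2) * Real.sin (b / 2) := by positivity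
    have h4 : 2 * Real.sin (e / 2) * Real.sin (b / 2) ≤ 1 := by
      nlinarith [Real.sin_le_one (b / 2)]
    have h5 := Real.sin_le heta0
    unfold eta at h5 ⊢
    rw [Real.sin_arcsin (by linarith) h4] at h5
    exact h5
  have h6 : 2 * Real.sin (e / 2) * (4 / 5) ≤ 2 * Real.sin (e / 2) * Real.sin (b / 2) :=
    mul_le_mul_of_nonneg_left hq (by linarith)
  have h7 : 13 / 10 * (2 * Real.sin (e / 2)) ≤ 5 / 2 * (b - 3 * Real.pi / 5) := by linarith
  -- `y = b - π/2`
  have h8 : - Real.cos b = Real.sin (b - Real.pi / 2) := (Real.sin_sub_pi_div_two b).symm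
  rw [h8]
  have hy0 : 0 < b - Real.pi / 2 := by linarith
  have hpi2 : Real.pi < 3.15 := Real.pi_lt_d2
  have hy1 : b - Real.pi / 2 ≤ Real.pi / 6 := by linarith
  have h9 := Real.sin_gt_sub_cube hy0
  set y := b - Real.pi / 2 with hy
  have h10 : 6 * (2 * Real.sin (e / 2)) / 5 ≤ 30 / 13 * (y - Real.pi / 10) := by
    rw [hy]; linarith
  refine h10.trans (le_trans ?_ h9.le)
  -- `30/13 (y - π/10) ≤ y - y³/6` for `y ≤ π/6`
  have h11 : y ^ 2 ≤ (Real.pi / 6) ^ 2 := pow_le_pow_left₀ hy0.le hy1 2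
  have h12 : Real.pi ^ 2 ≤ 9.9225 := by nlinarith
  have h13 : y ^ 2 ≤ 0.275625 := by nlinarith
  have h14 : y ^ 3 ≤ 0.275625 * y := by
    have : y ^ 3 = y ^ 2 * y := by ring
    rw [this]
    exact mul_le_mul_of_nonneg_right h13 hy0.le
  nlinarith

end C8

open C8

theorem case8 : Case8 := by
  intro b c e L1 L2 L3 hP hC hb1 hc hb2 hb3
  obtain ⟨hb0, hbpi, he0, he3, hcb, hcbe, hbpe⟩ := hP
  have hpi := Real.pi_pos
  have L := hC.lab
  have hC' : Cfg b (gP c (2 * Real.sin (e / 2))) (giP c (2 * Real.sin (e / 2))) L1 L2 L3 := by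
    unfold CfgO at hC
    simpa using hC
  obtain ⟨hd0, hb35, hx1, hx2, hq, h6⟩ := facts hb0 he0 he3 hb2 hb3
  have hm1 := L.m1
  have hm2 := L.m2
  have hm3 := L.m3
  generalize hd : 2 * Real.sin (e / 2) = d at *
  have hc0 : 0 < c := by linarith
  -- the angle `τ`
  have hcosb : - Real.cos b ≤ 1 := by linarith [Real.neg_one_le_cos b]
  set τ := Real.arcsin (6 * d / 5) with hτ
  have hS : Real.sin τ = 6 * d / 5 := Real.sin_arcsin (by linarith) (by linarith)
  have hK : 0 ≤ Real.cos τ := Real.cos_arcsin_nonneg _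
  have hτ0 : 0 ≤ τ := Real.arcsin_nonneg.2 (by linarith)
  have hτb : τ ≤ b - Real.pi / 2 := by
    rw [hτ, Real.arcsin_le_iff_le_sin ⟨by linarith, by linarith⟩ ⟨by linarith, by linarith⟩,
      Real.sin_sub_pi_div_two]
    exact h6
  have hcos : Real.cos (b - τ) ≤ 0 := by
    apply Real.cos_nonpos_of_pi_div_two_le_of_le <;> linarith
  have h3b : 0 < Real.sin (3 * b / 2) :=
    Real.sin_pos_of_pos_of_lt_pi (by linarith) (by linarith)
  -- `X`
  set p : ℝ := -Real.pi / 2 - b / 2 - τ with hp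
  set X : ℂ := (d : ℂ) + E p with hX
  have hgX : gP c d X = E (5 * Real.pi / 2 - 3 * b / 2 - τ) := by
    have e1 : 5 * Real.pi / 2 - 3 * b / 2 - τ = (c + p) + 2 * Real.pi := by
      rw [hp, hc]; ring
    rw [e1, E_two_pi, E_add]
    simp only [gP, hX]
    ring
  have hL3 : L3 (gP c d X) := by
    rw [hgX]
    apply L.sure3 he0 he3 hb0 hbpi hc0 hcbe (by linarith)
    · left; linarith
    · right; rw [hc]; linarith
  have hgi : giP c d (gP c d X) = X := by
    simp only [giP, gP]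
    have h4 : E (-c) * E c = 1 := by rw [E_mul]; simp [E_zero]
    linear_combination (X - d) * h4
  have hL1X : L1 X := by
    have := hC'.g31 _ hL3
    rwa [hgi] at this
  -- `Y`
  set Y : ℂ := E (2 * b) * X with hY
  have hYb : Y = E b * (E b * X) := by
    rw [hY, ← mul_assoc, E_mul]; congr 2; ring
  have hnY2 : ¬ L2 Y := by
    rw [hYb]
    exact L.not2_of (fun h => L.n12 _ h (L.r12 _ hL1X))
  have hnY3 : ¬ L3 Y := by
    intro h
    have h1 := hm3 _ h
    have e1 : Y + (d : ℂ) * E c =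
        E (2 * b) * (E p + ((2 * d * Real.sin (3 * b / 2) : ℝ) : ℂ) *
          E (Real.pi / 2 - 3 * b / 2)) := by
      have e2 := E_sub 0 (-(3 * b))
      have e3 : (0 - -(3 * b)) / 2 = 3 * b / 2 := by ring
      have e4 : Real.pi / 2 + (0 + -(3 * b)) / 2 = Real.pi / 2 - 3 * b / 2 := by ring
      rw [e3, e4] at e2
      have e5 : ((2 * d * Real.sin (3 * b / 2) : ℝ) : ℂ) * E (Real.pi / 2 - 3 * b / 2) =
          (d : ℂ) * (E 0 - E (-(3 * b))) := by
        rw [e2]; push_cast; ring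
      rw [e5, hY, hX]
      have e6 : E (2 * b) * E (-(3 * b)) = - E c := by
        rw [E_mul, hc]
        have : 2 * b + -(3 * b) = (Real.pi - b) + Real.pi - 2 * Real.pi := by ring
        rw [this, ← E_two_pi, sub_add_cancel, E_add_pi]
      rw [E_zero]
      linear_combination (d : ℂ) * e6
    rw [e1, norm_E_mul] at h1
    refine norm_gt_one ?_ h1
    rw [nsq2]
    have e7 : Real.cos (p - (Real.pi / 2 - 3 * b / 2)) = - Real.cos (b - τ) := by
      rw [← Real.cos_sub_pi]; congr 1; rw [hp]; ring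
    rw [e7]
    have h2 : 0 < 2 * d * Real.sin (3 * b / 2) := by positivity
    nlinarith [mul_nonneg h2.le (neg_nonneg.2 hcos), pow_pos h2 2]
  have hYn : ‖Y‖ ≤ 1 := by
    rw [hY, norm_E_mul]
    exact L.in1 _ hL1X
  have hL1Y : L1 Y := by
    rcases L.cov Y hYn with h | h | h
    · exact h
    · exact absurd h hnY2
    · exact absurd h hnY3
  have hgY := hC'.g13 _ hL1Y
  have hnZ3 : ¬ L3 (gP c d (gP c d Y)) := by
    intro h
    have h1 := hC'.g31 _ h
    have hgi2 : giP c d (gP c d (gP c d Y)) = gP c d Y := by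
      simp only [giP, gP]
      have h4 : E (-c) * E c = 1 := by rw [E_mul]; simp [E_zero]
      linear_combination (E c * (Y - d) - d) * h4
    rw [hgi2] at h1
    exact L.n13 _ h1 hgY
  -- `Z`
  have hbb : E (-b) - E (-(2 * b)) =
      ((2 * Real.sin (b / 2) : ℝ) : ℂ) * E (Real.pi / 2 - 3 * b / 2) := by
    rw [E_sub]
    have e3 : (-b - -(2 * b)) / 2 = b / 2 := by ring
    have e4 : Real.pi / 2 + (-b + -(2 * b)) / 2 = Real.pi / 2 - 3 * b / 2 := by ring
    rw [e3, e4]
  have hZ : gP c d (gP c d Y) = E p + (d : ℂ) +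
      ((2 * d * Real.sin (b / 2) : ℝ) : ℂ) * E (Real.pi / 2 - 3 * b / 2) := by
    have e5 : ((2 * d * Real.sin (b / 2) : ℝ) : ℂ) * E (Real.pi / 2 - 3 * b / 2) =
        (d : ℂ) * (E (-b) - E (-(2 * b))) := by
      rw [hbb]; push_cast; ring
    rw [e5]
    simp only [gP]
    have f1 : E c * E c = E (-(2 * b)) := by
      rw [E_mul, hc]
      have : Real.pi - b + (Real.pi - b) = -(2 * b) + 2 * Real.pi := by ring
      rw [this, E_two_pi]
    have f2 : E c = - E (-b) := by
      rw [hc]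
      have : Real.pi - b = -b + Real.pi := by ring
      rw [this, E_add_pi]
    have f3 : E (-(2 * b)) * E (2 * b) = 1 := by rw [E_mul]; simp [E_zero]
    have f4 : E c * (E c * (Y - d) - d) = (E c * E c) * (Y - d) - E c * d := by ring
    rw [f4, f1, f2, hY, hX]
    linear_combination ((d : ℂ) + E p) * f3
  have hZn : ‖gP c d (gP c d Y)‖ ≤ 1 := by
    rw [hZ]
    apply norm_le_one
    rw [nsq3]
    have e7 : Real.cos (p - (Real.pi / 2 - 3 * b / 2)) = - Real.cos (b - τ) := by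
      rw [← Real.cos_sub_pi]; congr 1; rw [hp]; ring
    have e8 : Real.cos p = - Real.sin (b / 2 + τ) := by
      have : p = -((b / 2 + τ) + Real.pi / 2) := by rw [hp]; ring
      rw [this, Real.cos_neg, Real.cos_add_pi_div_two]
    have e9 : Real.cos (Real.pi / 2 - 3 * b / 2) = Real.sin (3 * (b / 2)) := by
      rw [Real.cos_pi_div_two_sub]; congr 1; ring
    have e10 : Real.cos (b - τ) = (2 * Real.cos (b / 2) ^ 2 - 1) * Real.cos τ +
        2 * Real.sin (b / 2) * Real.cos (b / 2) * Real.sin τ := by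
      rw [Real.cos_sub]
      have h1 : Real.cos b = 2 * Real.cos (b / 2) ^ 2 - 1 := by
        rw [← Real.cos_two_mul]; congr 1; ring
      have h2 : Real.sin b = 2 * Real.sin (b / 2) * Real.cos (b / 2) := by
        rw [← Real.sin_two_mul]; congr 1; ring
      rw [h1, h2]
    rw [e7, e8, e9, e10, Real.sin_add, Real.sin_three_mul, hS]
    have hsq := Real.sin_sq_add_cos_sq (b / 2)
    set P := Real.cos (b / 2) with hPd
    set Q := Real.sin (b / 2) with hQd
    set K := Real.cos τ with hKd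
    have hQ2 : Q ^ 2 = 1 - P ^ 2 := by linarith
    have hid : 1 + d ^ 2 + (2 * d * Q) ^ 2 + 2 * d * -(Q * K + P * (6 * d / 5)) +
        2 * (2 * d * Q) * -((2 * P ^ 2 - 1) * K + 2 * Q * P * (6 * d / 5)) +
        2 * d * (2 * d * Q) * (3 * Q - 4 * Q ^ 3) =
        1 + d ^ 2 * (1 + 16 * P ^ 2 - 16 * P ^ 4 - 12 * P + 48 / 5 * P ^ 3) -
          2 * d * Q * K * (4 * P ^ 2 - 1) := by
      have h4 : Q ^ 4 = (1 - P ^ 2) ^ 2 := by rw [← hQ2]; ring
      linear_combination (16 * d ^ 2 - 48 / 5 * d ^ 2 * P) * hQ2 - 16 * d ^ 2 * h4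
    rw [hid]
    have hpoly : 1 + 16 * P ^ 2 - 16 * P ^ 4 - 12 * P + 48 / 5 * P ^ 3 ≤ 0 := by
      nlinarith [mul_nonneg (sub_nonneg.2 hx1.le) (sub_nonneg.2 hx2),
        mul_nonneg (mul_nonneg (sub_nonneg.2 hx1.le) (sub_nonneg.2 hx2)) (sq_nonneg P),
        mul_nonneg (mul_nonneg (sub_nonneg.2 hx1.le) (sub_nonneg.2 hx2)) (show 0 ≤ P by linarith)]
    have h2 : 0 ≤ 2 * d * Q * K * (4 * P ^ 2 - 1) := by
      have : 0 ≤ 4 * P ^ 2 - 1 := by nlinarith
      have hQ0 : 0 ≤ Q := by linarith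
      positivity
    nlinarith [mul_nonneg (sq_nonneg d) (neg_nonneg.2 hpoly)]
  rcases L.cov (gP c d (gP c d Y)) hZn with h | h | h
  · -- not in `L1`
    have h1 := hm1 _ h
    rw [hZ] at h1
    have e1 : E p + (d : ℂ) + ((2 * d * Real.sin (b / 2) : ℝ) : ℂ) * E (Real.pi / 2 - 3 * b / 2)
        - (d : ℂ) = E p + ((2 * d * Real.sin (b / 2) : ℝ) : ℂ) * E (Real.pi / 2 - 3 * b / 2) := by
      ring
    rw [e1] at h1
    refine norm_gt_one ?_ h1
    rw [nsq2]
    have e7 : Real.cos (p - (Real.pi / 2 - 3 * b / 2)) = - Real.cos (b - τ) := by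
      rw [← Real.cos_sub_pi]; congr 1; rw [hp]; ring
    rw [e7]
    have h2 : 0 < 2 * d * Real.sin (b / 2) := by positivity
    nlinarith [mul_nonneg h2.le (neg_nonneg.2 hcos), pow_pos h2 2]
  · -- not in `L2`
    have h1 := hm2 _ h
    rw [hZ] at h1
    have e1 : E p + (d : ℂ) + ((2 * d * Real.sin (b / 2) : ℝ) : ℂ) * E (Real.pi / 2 - 3 * b / 2)
        - (d : ℂ) * E b = E p + ((4 * d * Real.sin (b / 2) * Real.sin b : ℝ) : ℂ) *
          E (-(b / 2)) := by
      have g1 := E_sub 0 b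
      have g2 : (0 - b) / 2 = -(b / 2) := by ring
      have g3 : Real.pi / 2 + (0 + b) / 2 = Real.pi / 2 + b / 2 := by ring
      rw [g2, g3, Real.sin_neg, E_zero] at g1
      have g4 := E_sub (Real.pi / 2 - 3 * b / 2) (Real.pi / 2 + b / 2)
      have g5 : (Real.pi / 2 - 3 * b / 2 - (Real.pi / 2 + b / 2)) / 2 = -b := by ring
      have g6 : Real.pi / 2 + (Real.pi / 2 - 3 * b / 2 + (Real.pi / 2 + b / 2)) / 2 =
          -(b / 2) + Real.pi := by ring
      rw [g5, g6, Real.sin_neg, E_add_pi] at g4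
      push_cast at g1 g4 ⊢
      linear_combination (d : ℂ) * g1 + (2 * d * Complex.sin ((b : ℂ) / 2)) * g4
    rw [e1] at h1
    refine norm_gt_one ?_ h1
    rw [nsq2]
    have e7 : Real.cos (p - -(b / 2)) = - Real.sin τ := by
      have : p - -(b / 2) = -(τ + Real.pi / 2) := by rw [hp]; ring
      rw [this, Real.cos_neg, Real.cos_add_pi_div_two]
    rw [e7, hS]
    have hsb : Real.sin b = 2 * Real.sin (b / 2) * Real.cos (b / 2) := by
      rw [← Real.sin_two_mul]; congr 1; ring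
    have hsq := Real.sin_sq_add_cos_sq (b / 2)
    have hkey : 6 / 5 < 2 * Real.sin (b / 2) * Real.sin b := by
      rw [hsb]
      have : 2 * Real.sin (b / 2) * (2 * Real.sin (b / 2) * Real.cos (b / 2)) =
          4 * Real.cos (b / 2) * (1 - Real.cos (b / 2) ^ 2) := by
        rw [← hsq]; ring
      rw [this]
      nlinarith
    have h2 : 0 < 4 * d * Real.sin (b / 2) * Real.sin b := by
      have : 0 < Real.sin b := Real.sin_pos_of_pos_of_lt_pi hb0 hbpi
      positivity
    have h3 : 2 * (6 * d / 5) < 4 * d * Real.sin (b / 2) * Real.sin b := by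
      nlinarith
    nlinarith [mul_pos h2 (sub_pos.2 h3)]
  · exact hnZ3 h

end Pool.Agent.H908R3.Disc
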