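import Pool.Agent.H908R3.Disc.Basic

/-!
# The certificate cases (task statements)
-/

set_option autoImplicit false

namespace Pool.Agent.H908R3.Disc

open Complex ComplexConjugate

/-- parameter range. -/
structure Par (b c e : ℝ) : Prop where
  b0 : 0 < b
  bpi : b < Real.pi
  e0 : 0 < e
  e3 : e ≤ Real.pi / 3
  cb : b / 2 ≤ c
  cbe : c ≤ b - e
  bpe : b ≤ Real.pi - e

/-- `eta = arcsin (d sin (b/2))`, `d = 2 sin (e/2)`. -/
noncomputable def eta (b e : ℝ) : ℝ := Real.arcsin (2 * Real.sin (e/2) * Real.sin (b/2))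
/-- `e2 = arcsin (d cos (c/2))`. -/
noncomputable def e2 (c e : ℝ) : ℝ := Real.arcsin (2 * Real.sin (e/2) * Real.cos (c/2))

def Case0 : Prop := ∀ (o : Bool) (b c e : ℝ) (L1 L2 L3 : ℂ → Prop),
  0 < b → b < Real.pi → 0 < e → e ≤ Real.pi / 3 → b / 2 ≤ c → c ≤ b / 2 + Real.pi →
  CfgO o b c e L1 L2 L3 → Par b c e

def Case1 : Prop := ∀ (o : Bool) (b c e : ℝ) (L1 L2 L3 : ℂ → Prop), Par b c e →
  CfgO o b c e L1 L2 L3 → (Real.pi - e) / 3 < b → b < (Real.pi + e) / 2 → False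

def Case2 : Prop := ∀ (o : Bool) (b c e : ℝ) (L1 L2 L3 : ℂ → Prop), Par b c e →
  CfgO o b c e L1 L2 L3 → (b ≤ (Real.pi - e) / 3 ∨ (Real.pi + e) / 2 ≤ b) →
  5 * b / 2 - eta b e < 3 * Real.pi / 2 + e / 2 → False

def Case3 : Prop := ∀ (o : Bool) (b c e : ℝ) (L1 L2 L3 : ℂ → Prop), Par b c e →
  CfgO o b c e L1 L2 L3 → Real.pi - b < c → c < 2 * b - Real.pi → False

def Case4 : Prop := ∀ (o : Bool) (b c e : ℝ) (L1 L2 L3 : ℂ → Prop), Par b c e →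
  CfgO o b c e L1 L2 L3 → (Real.pi + e) / 2 ≤ b → 3 * Real.pi / 5 < b → c < Real.pi - b → False

def Case5 : Prop := ∀ (b c e : ℝ) (L1 L2 L3 : ℂ → Prop), Par b c e →
  CfgO true b c e L1 L2 L3 → (Real.pi + e) / 2 ≤ b →
  b < 3 * c / 2 + e2 c e + e / 2 → 2 * b + c / 2 + e2 c e < 2 * Real.pi + e / 2 → False

def Case6 : Prop := ∀ (b c e : ℝ) (L1 L2 L3 : ℂ → Prop), Par b c e →
  CfgO true b c e L1 L2 L3 → (Real.pi + e) / 2 ≤ b → 3 * Real.pi / 5 < b →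
  Real.pi - b < c → 2 * b - Real.pi ≤ c →
  3 * c / 2 + e2 c e + e / 2 ≤ b → False

def Case7 : Prop := ∀ (b c e : ℝ) (L1 L2 L3 : ℂ → Prop), Par b c e →
  CfgO true b c e L1 L2 L3 → (Real.pi + e) / 2 ≤ b → 2 * b - Real.pi < c →
  2 * Real.pi + e / 2 ≤ 2 * b + c / 2 + e2 c e → False

def Case8 : Prop := ∀ (b c e : ℝ) (L1 L2 L3 : ℂ → Prop), Par b c e →
  CfgO true b c e L1 L2 L3 → (Real.pi + e) / 2 ≤ b → c = Real.pi - b →
  b < 2 * Real.pi / 3 → 3 * Real.pi / 2 + e / 2 ≤ 5 * b / 2 - eta b e → False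

def Case9 : Prop := ∀ (b c e : ℝ) (L1 L2 L3 : ℂ → Prop), Par b c e →
  CfgO true b c e L1 L2 L3 → c = 2 * b - Real.pi → 2 * Real.pi / 3 < b →
  2 * Real.pi + e / 2 ≤ 2 * b + c / 2 + e2 c e → False

def CaseR : Prop := ∀ (b c e : ℝ) (L1 L2 L3 : ℂ → Prop), Par b c e →
  CfgO false b c e L1 L2 L3 → (Real.pi + e) / 2 ≤ b →
  Real.pi - b < c → 2 * b - Real.pi < c → False

/-- here `c < b/2`, so no `Par`. -/
def CaseR8 : Prop := ∀ (b c e : ℝ) (L1 L2 L3 : ℂ → Prop), 0 < e → e ≤ Real.pi / 3 →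
  b ≤ Real.pi - e → CfgO false b c e L1 L2 L3 → (Real.pi + e) / 2 ≤ b → c = 2 * b - Real.pi →
  b < 2 * Real.pi / 3 → False

def CaseR9 : Prop := ∀ (b c e : ℝ) (L1 L2 L3 : ℂ → Prop), Par b c e →
  CfgO false b c e L1 L2 L3 → c = 2 * b - Real.pi → 2 * Real.pi / 3 < b → False

def CaseT : Prop := ∀ (o : Bool) (b c e : ℝ) (L1 L2 L3 : ℂ → Prop),
  CfgO o b c e L1 L2 L3 → b = 2 * Real.pi / 3 → c = Real.pi / 3 → False

end Pool.Agent.H908R3.Disc
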