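import Pool.Agent.H908R3.Disc.Cases

/-!
# Assembly
-/

set_option autoImplicit false

namespace Pool.Agent.H908R3.Disc

open Complex ComplexConjugate

/-- the mirror lemma as a Prop (TASK D2). -/
def Mirror : Prop := ∀ (o : Bool) (b c e : ℝ) (L1 L2 L3 : ℂ → Prop), CfgO o b c e L1 L2 L3 →
  CfgO o b (b - c) e (fun x => L2 (E b * conj x)) (fun x => L1 (E b * conj x))
    (fun x => L3 (E b * conj x))

theorem core3 (hM : Mirror) (h0 : Case0) (h1 : Case1) (h2 : Case2) (h3 : Case3) (h4 : Case4)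
    (h5 : Case5) (h6 : Case6) (h7 : Case7) (h8 : Case8) (h9 : Case9) (hR : CaseR)
    (hR8 : CaseR8) (hR9 : CaseR9) (hT : CaseT) : Core3 := by
  intro o b c e L1 L2 L3 b0 bpi e0 e3 cb cb' H
  have P : Par b c e := h0 o b c e L1 L2 L3 b0 bpi e0 e3 cb cb' H
  have hpi := Real.pi_pos
  have hcbe := P.cbe
  have hbpe := P.bpe
  have heta : 0 ≤ eta b e := by
    unfold eta
    apply Real.arcsin_nonneg.mpr
    have s1 : 0 ≤ Real.sin (e/2) := Real.sin_nonneg_of_nonneg_of_le_pi (by linarith) (by linarith)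
    have s2 : 0 ≤ Real.sin (b/2) := Real.sin_nonneg_of_nonneg_of_le_pi (by linarith) (by linarith)
    positivity
  by_cases hb1 : b ≤ (Real.pi - e) / 3
  · refine h2 o b c e L1 L2 L3 P H (Or.inl hb1) ?_
    linarith
  push Not at hb1
  by_cases hb2 : b < (Real.pi + e) / 2
  · exact h1 o b c e L1 L2 L3 P H hb1 hb2
  push Not at hb2
  by_cases hb3 : 5 * b / 2 - eta b e < 3 * Real.pi / 2 + e / 2
  · exact h2 o b c e L1 L2 L3 P H (Or.inr hb2) hb3
  push Not at hb3
  have hb35 : 3 * Real.pi / 5 < b := by linarith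
  rcases lt_trichotomy c (Real.pi - b) with hc | hc | hc
  · exact h4 o b c e L1 L2 L3 P H hb2 hb35 hc
  · by_cases hb4 : b < 2 * Real.pi / 3
    · cases o with
      | true => exact h8 b c e L1 L2 L3 P H hb2 hc hb4 hb3
      | false =>
        have H' := hM false b c e L1 L2 L3 H
        exact hR8 b (b - c) e _ _ _ e0 e3 hbpe H' hb2 (by linarith) hb4
    · push Not at hb4
      refine hT o b c e L1 L2 L3 H ?_ ?_ <;> linarith
  · rcases lt_trichotomy c (2 * b - Real.pi) with hc2 | hc2 | hc2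
    · exact h3 o b c e L1 L2 L3 P H hc hc2
    · cases o with
      | false => exact hR9 b c e L1 L2 L3 P H hc2 (by linarith)
      | true =>
        by_cases hA : 3 * c / 2 + e2 c e + e / 2 ≤ b
        · exact h6 b c e L1 L2 L3 P H hb2 hb35 hc (by linarith) hA
        · push Not at hA
          by_cases hB : 2 * b + c / 2 + e2 c e < 2 * Real.pi + e / 2
          · exact h5 b c e L1 L2 L3 P H hb2 hA hB
          · push Not at hB
            exact h9 b c e L1 L2 L3 P H hc2 (by linarith) hB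
    · cases o with
      | false => exact hR b c e L1 L2 L3 P H hb2 hc hc2
      | true =>
        by_cases hA : 3 * c / 2 + e2 c e + e / 2 ≤ b
        · exact h6 b c e L1 L2 L3 P H hb2 hb35 hc hc2.le hA
        · push Not at hA
          by_cases hB : 2 * b + c / 2 + e2 c e < 2 * Real.pi + e / 2
          · exact h5 b c e L1 L2 L3 P H hb2 hA hB
          · push Not at hB
            exact h7 b c e L1 L2 L3 P H hb2 hc2 hB

theorem final (hA : TaskA) (hB : TaskB) (hC : TaskC) (hD : TaskD) (hM : Mirror) (h0 : Case0)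
    (h1 : Case1) (h2 : Case2) (h3 : Case3) (h4 : Case4)
    (h5 : Case5) (h6 : Case6) (h7 : Case7) (h8 : Case8) (h9 : Case9) (hR : CaseR)
    (hR8 : CaseR8) (hR9 : CaseR9) (hT : CaseT) :
    ¬ (∃ A B C : Set (EuclideanSpace ℝ (Fin 2)),
      A ∪ B ∪ C = Metric.closedBall (0 : EuclideanSpace ℝ (Fin 2)) 1 ∧
      Disjoint A B ∧ Disjoint A C ∧ Disjoint B C ∧
      (∃ f : EuclideanSpace ℝ (Fin 2) ≃ᵢ EuclideanSpace ℝ (Fin 2), f '' A = B) ∧
      (∃ g : EuclideanSpace ℝ (Fin 2) ≃ᵢ EuclideanSpace ℝ (Fin 2), g '' A = C)) :=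
  hA (hC hB (hD (core3 hM h0 h1 h2 h3 h4 h5 h6 h7 h8 h9 hR hR8 hR9 hT)))

end Pool.Agent.H908R3.Disc
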