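import Pool.Agent.H908R3.Disc.Defs

/-!
# Task C: relabelling of the three pieces
-/

set_option autoImplicit false

namespace Pool.Agent.H908R3.Disc

open Complex ComplexConjugate

namespace TaskCAux

lemma norm_mul_conj {u : ℂ} (hu : ‖u‖ = 1) : u * conj u = 1 := by
  rw [Complex.mul_conj, Complex.normSq_eq_norm_sq, hu]
  simp

lemma inv_iso {F : ℂ → ℂ} (hF : IsIso F) :
    ∃ Fi : ℂ → ℂ, IsIso Fi ∧ (∀ x, Fi (F x) = x) ∧ (∀ x, F (Fi x) = x) := by
  obtain ⟨u, t, hu, h | h⟩ := hF
  · have huu := norm_mul_conj hu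
    refine ⟨fun y => conj u * y + (-(conj u * t)), ⟨conj u, -(conj u * t), by simpa using hu,
      Or.inl fun _ => rfl⟩, fun x => ?_, fun x => ?_⟩
    · simp only [h]
      linear_combination x * huu
    · simp only [h]
      linear_combination (x - t) * huu
  · have huu := norm_mul_conj hu
    refine ⟨fun y => u * conj y + (-(u * conj t)), ⟨u, -(u * conj t), hu,
      Or.inr fun _ => rfl⟩, fun x => ?_, fun x => ?_⟩
    · simp only [h, map_add, map_mul, Complex.conj_conj]
      linear_combination x * huu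
    · simp only [h, map_add, map_mul, map_neg, Complex.conj_conj]
      linear_combination (x - t) * huu

lemma comp_iso {F G : ℂ → ℂ} (hF : IsIso F) (hG : IsIso G) : IsIso (fun x => G (F x)) := by
  obtain ⟨u, t, hu, h | h⟩ := hF <;> obtain ⟨v, s, hv, k | k⟩ := hG
  · refine ⟨v * u, v * t + s, by rw [norm_mul, hu, hv, one_mul], Or.inl fun x => ?_⟩
    simp only [h, k]; ring
  · refine ⟨v * conj u, v * conj t + s, by rw [norm_mul, hv, one_mul]; simpa using hu,
      Or.inr fun x => ?_⟩
    simp only [h, k, map_add, map_mul]; ring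
  · refine ⟨v * u, v * t + s, by rw [norm_mul, hu, hv, one_mul], Or.inr fun x => ?_⟩
    simp only [h, k]; ring
  · refine ⟨v * conj u, v * conj t + s, by rw [norm_mul, hv, one_mul]; simpa using hu,
      Or.inl fun x => ?_⟩
    simp only [h, k, map_add, map_mul, Complex.conj_conj]; ring

end TaskCAux

open TaskCAux in
theorem taskC : TaskC := by
  intro hB h2 A F G hF hG hP
  obtain ⟨Fi, hFi, f1, f2⟩ := inv_iso hF
  obtain ⟨Gi, hGi, g1, g2⟩ := inv_iso hG
  obtain ⟨hcov, d12, d13, d23⟩ := hP
  by_cases c1 : Fi 0 = 0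
  · have hF0 : F 0 = 0 := by
      have := f2 0
      rwa [c1] at this
    exact h2 A F G hF hG hF0 ⟨hcov, d12, d13, d23⟩
  by_cases c2 : Gi 0 = 0
  · have hG0 : G 0 = 0 := by
      have := g2 0
      rwa [c2] at this
    refine h2 A G F hG hF hG0 ⟨?_, d13, d12, d23.symm⟩
    rw [← hcov]
    ext x
    simp only [Set.mem_union]
    tauto
  by_cases c3 : Fi 0 = Gi 0
  · have hR0 : G (Fi 0) = 0 := by rw [c3]; exact g2 0
    have e1 : (fun x => G (Fi x)) '' (F '' A) = G '' A := by
      rw [Set.image_image]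
      simp only [f1]
    have e2 : Fi '' (F '' A) = A := by
      rw [Set.image_image]
      simp only [f1, Set.image_id']
    refine h2 (F '' A) (fun x => G (Fi x)) Fi (comp_iso hFi hG) hFi hR0 ?_
    unfold Part
    rw [e1, e2]
    refine ⟨?_, d23, d12.symm, d13.symm⟩
    rw [← hcov]
    ext x
    simp only [Set.mem_union]
    tauto
  · exact hB A F G (Fi 0) (Gi 0) hF hG (f2 0) (g2 0) hcov c1 c2 c3

end Pool.Agent.H908R3.Disc
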