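import Mathlib
import Pool.Agent.H908R3.Disc.Defs

set_option autoImplicit false

namespace Pool.Agent.H908R3.Disc

open Complex ComplexConjugate

namespace D2

theorem E_add (s t : ℝ) : E (s + t) = E s * E t := by
  unfold E
  rw [← Complex.exp_add]
  push_cast
  ring_nf

theorem E_zero : E 0 = 1 := by simp [E]

theorem E_neg_mul (s : ℝ) : E (-s) * E s = 1 := by
  rw [← E_add, neg_add_cancel, E_zero]

theorem E_mul_neg (s : ℝ) : E s * E (-s) = 1 := by
  rw [← E_add, add_neg_cancel, E_zero]

theorem conj_E (s : ℝ) : conj (E s) = E (-s) := by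
  unfold E
  rw [← Complex.exp_conj]
  simp

theorem norm_E (s : ℝ) : ‖E s‖ = 1 := Complex.norm_exp_ofReal_mul_I s

theorem norm_sig (b : ℝ) (x : ℂ) : ‖E b * conj x‖ = ‖x‖ := by
  rw [norm_mul, norm_E, one_mul, Complex.norm_conj]

/-- general mirror lemma -/
theorem mirror_gen {b : ℝ} {g gi g' gi' : ℂ → ℂ} {L1 L2 L3 : ℂ → Prop}
    (h : Cfg b g gi L1 L2 L3)
    (hg : ∀ x, g (conj x) = E b * conj (g' x))
    (hgi : ∀ x, gi (E b * conj x) = conj (gi' x)) :
    Cfg b g' gi' (fun x => L2 (E b * conj x)) (fun x => L1 (E b * conj x))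
      (fun x => L3 (E b * conj x)) := by
  have hb : ∀ x : ℂ, E (-b) * (E b * conj x) = conj x := fun x => by
    rw [← mul_assoc, E_neg_mul, one_mul]
  constructor
  · intro x hx
    have h1 := h.cov (E b * conj x) (by rw [norm_sig]; exact hx)
    tauto
  · intro x hx
    have := h.in2 _ hx
    rwa [norm_sig] at this
  · intro x hx
    have := h.in1 _ hx
    rwa [norm_sig] at this
  · intro x hx
    have := h.in3 _ hx
    rwa [norm_sig] at this
  · intro x hx h2
    exact h.n12 _ h2 hx
  · intro x hx
    exact h.n23 _ hx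
  · intro x hx
    exact h.n13 _ hx
  · intro x hx
    have h1 := h.r21 _ hx
    rw [hb] at h1
    have e : E b * conj (E b * x) = conj x := by
      rw [map_mul, conj_E, ← mul_assoc, E_mul_neg, one_mul]
    show L1 (E b * conj (E b * x))
    rw [e]
    exact h1
  · intro x hx
    have h1 := h.r12 _ hx
    have e : E b * conj (E (-b) * x) = E b * (E b * conj x) := by
      rw [map_mul, conj_E, neg_neg]
    show L2 (E b * conj (E (-b) * x))
    rw [e]
    exact h1
  · intro x hx
    have h1 := h.r21 _ hx
    rw [hb] at h1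
    have h2 := h.g13 _ h1
    rw [hg] at h2
    exact h2
  · intro x hx
    have h1 := h.g31 _ hx
    rw [hgi] at h1
    exact h.r12 _ h1

end D2

open D2 in
/-- the mirror image of a configuration. -/
theorem mirror {o : Bool} {b c e : ℝ} {L1 L2 L3 : ℂ → Prop} (h : CfgO o b c e L1 L2 L3) :
    CfgO o b (b - c) e (fun x => L2 (E b * conj x)) (fun x => L1 (E b * conj x))
      (fun x => L3 (E b * conj x)) := by
  cases o with
  | true =>
    simp only [CfgO, if_true] at h ⊢
    refine mirror_gen h (fun x => ?_) (fun x => ?_)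
    · have e1 : E c = E b * E (-(b - c)) := by rw [← E_add]; congr 1; ring
      simp only [gP, map_mul, map_sub, conj_E, Complex.conj_ofReal]
      rw [e1]
      ring
    · have e1 : E (-c) * E b = E (b - c) := by rw [← E_add]; congr 1; ring
      simp only [giP, map_add, map_mul, conj_E, Complex.conj_ofReal, neg_neg]
      rw [← mul_assoc, e1]
  | false =>
    simp only [CfgO] at h ⊢
    refine mirror_gen h (fun x => ?_) (fun x => ?_)
    · have e1 : E c = E b * E (-(b - c)) := by rw [← E_add]; congr 1; ring
      simp only [gR, map_mul, map_sub, conj_E, Complex.conj_ofReal, Complex.conj_conj]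
      rw [e1]
      ring
    · have e1 : E c * E (-b) = E (-(b - c)) := by rw [← E_add]; congr 1; ring
      simp only [giR, map_add, map_mul, conj_E, Complex.conj_ofReal, Complex.conj_conj]
      rw [← mul_assoc, e1]

end Pool.Agent.H908R3.Disc
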